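import Pool.Agent.H546.W10
import Pool.Agent.H546.Lin2

set_option autoImplicit false

/-!
# The sums of `C(2k,k) C(3k,k) / 27^k` twisted by Fibonacci and Lucas numbers modulo `p²` (Q1 and Q2)

The proof: let `P = ∑_{k<p} C(2k,k) C(3k,k) (X/27)^k`.  The quadratic transformation
`P(s(3+s)²/(2(1+s)³)) ~ (1+s) P(s²(3+s)/4)` of the full series gives two almost-solutions of one second order
differential equation; their Wronskian, cleared of denominators, is a polynomial `H` of degree at most `6p-6`, and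
comparing derivatives, orders at `0` and degrees in characteristic `p` gives `H ≡ p Γ^(p-1)` modulo `p²` with
`Γ = (1+s)(1-s)(2+s)s(3+s)`.  At `s = (√5+√-3)/2 - 1` the two arguments are `(1±√5)/2`, and with the reflection
`P(1-X) ≡ ±P(X)` one gets the relation `P(φ)(2P(φ) + 3√5 P'(φ)) ≡ ±2p` modulo `p²`.  The value `P(ψ)` modulo `p²` is
a combination of Legendre polynomials, computed from the Frobenius lift of the elliptic curve
`y² = x³ + (6A-27)x + (A²-18A+54)`, `A = 2 - 2√5`, with isogenies of degrees `5` and `3` to its conjugate.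
-/

open Finset

namespace Pool.Agent.Results.MP_2eac29_nt.FibLucas

/-- the Lucas numbers -/
def L : ℕ → ℕ
  | 0 => 2
  | 1 => 1
  | (n + 2) => L (n + 1) + L n

/-- `a_k = C(2k,k) C(3k,k) / 27^k` -/
def a (k : ℕ) : ℚ := ((2 * k).choose k * (3 * k).choose k : ℕ) / 27 ^ k

/-- congruence modulo `p²`: the numerator of `A - B` in lowest terms is divisible by `p²` -/
def Cong (p : ℕ) (A B : ℚ) : Prop := (p : ℤ) ^ 2 ∣ (A - B).num

theorem L_eq (n : ℕ) : L n = Pool.Agent.H546.luc n := by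
  induction n using Nat.strong_induction_on with
  | _ n ih =>
    rcases n with _ | _ | n
    · rfl
    · rfl
    · rw [L, Pool.Agent.H546.luc, ih n (by omega), ih (n + 1) (by omega)]

theorem cong_of {p : ℕ} (hp : p.Prime) {A B : ℚ} (h : p.Coprime ((A - B) / (p : ℚ) ^ 2).den) : Cong p A B := by
  unfold Cong
  set r := (A - B) / (p : ℚ) ^ 2 with hr
  have hp0 : (p : ℚ) ≠ 0 := by exact_mod_cast hp.ne_zero
  have h1 : A - B = (p : ℚ) ^ 2 * r := by rw [hr]; field_simp
  have h2 : (A - B).num * (r.den : ℤ) = (p : ℤ) ^ 2 * r.num * ((A - B).den : ℤ) := by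
    have e1 := Rat.mul_den_eq_num (A - B)
    have e2 := Rat.mul_den_eq_num r
    have e3 : ((A - B).num : ℚ) * (r.den : ℚ) = (p : ℚ) ^ 2 * r.num * ((A - B).den : ℚ) := by
      rw [← e1, ← e2]
      linear_combination ((A - B).den : ℚ) * (r.den : ℚ) * h1
    exact_mod_cast e3
  have h3 : IsCoprime ((p : ℤ) ^ 2) (r.den : ℤ) := by
    apply IsCoprime.pow_left
    exact Nat.isCoprime_iff_coprime.mpr h
  apply h3.dvd_of_dvd_mul_right
  rw [h2, mul_assoc]
  exact dvd_mul_right _ _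

open Pool.Agent.H546 in
/-- the transfer -/
theorem main (p : ℕ) [hp : Fact p.Prime] (h16 : 16 ≤ p) (x y : ℤ) (h3x : (3 : ℤ) ∣ x - 1) (hpx : ¬ (p : ℤ) ∣ x) :
    (p % 3 = 1 → legendreSym p 5 = 1 → (p : ℤ) = x ^ 2 + 15 * y ^ 2 →
      Cong p (∑ k ∈ range p, (k : ℚ) * a k * Nat.fib k) (2 / 15 * (p / x - 2 * x)) ∧
      Cong p (∑ k ∈ range p, a k * L k) (4 * x - p / x) ∧
      Cong p (∑ k ∈ range p, (3 * (k : ℚ) + 2) * a k * L k) (4 * x)) ∧
    (p % 3 = 2 → legendreSym p 5 = -1 → (p : ℤ) = 5 * x ^ 2 + 3 * y ^ 2 →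
      Cong p (∑ k ∈ range p, a k * Nat.fib k) (p / (5 * x) - 4 * x) ∧
      Cong p (∑ k ∈ range p, (k : ℚ) * a k * Nat.fib k) (4 / 3 * x) ∧
      Cong p (∑ k ∈ range p, (k : ℚ) * a k * L k) (4 / 3 * x)) := by
  have hp2 : p ≠ 2 := by omega
  have hq := SW_q p
  have : CharZero (KO p) := charZero_K (SW p) hq
  have n5 : ¬ (p : ℤ) ∣ 5 := by
    have := ndvd_of_primes p (n := 5) (l := [5]) (by simp; norm_num) (by norm_num) (by simp; omega)
    exact_mod_cast this
  have n3' : ¬ (p : ℤ) ∣ 3 := by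
    have := ndvd_of_primes p (n := 3) (l := [3]) (by simp; norm_num) (by norm_num) (by simp; omega)
    exact_mod_cast this
  have n3 : ¬ (p : ℤ) ∣ -3 := by
    rw [dvd_neg]; exact n3'
  have n27 : ¬ (p : ℤ) ∣ 27 := by
    have := ndvd_of_primes p (n := 27) (l := [3, 3, 3]) (by simp; norm_num) (by norm_num) (by simp; omega)
    exact_mod_cast this
  obtain ⟨σ, hσ⟩ := wo_isqrt p hp2 n5
  obtain ⟨ρ, hρ⟩ := wo_isqrt p hp2 n3
  obtain ⟨v, hv⟩ := ((SW p).unit_of_red ((SW p).two_ne hp2)).exists_right_inv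
  have r27 : (SW p).red 27 ≠ 0 := by
    have := (SW p).int_ne (p := p) n27
    exact_mod_cast this
  have r3 : (SW p).red 3 ≠ 0 := by
    have := (SW p).int_ne (p := p) n3'
    exact_mod_cast this
  obtain ⟨i27, h27⟩ := ((SW p).unit_of_red r27).exists_right_inv
  obtain ⟨i3, h3⟩ := ((SW p).unit_of_red r3).exists_right_inv
  obtain ⟨iv, hiv⟩ := iv_exists (SW p) (p := p)
  obtain ⟨w, hw⟩ : ∃ w : PowerSeries (WO p), (1 + PowerSeries.X) * w = 1 := by
    have hu : IsUnit (1 + PowerSeries.X : PowerSeries (WO p)) := by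
      rw [PowerSeries.isUnit_iff_constantCoeff, map_add, map_one, PowerSeries.constantCoeff_X, add_zero]
      exact isUnit_one
    exact hu.exists_right_inv
  let Q : QD (WO p) := ⟨v, w, hv, hw⟩
  obtain ⟨m1, m2⟩ := d15_main (SW p) hq h16 (by exact_mod_cast hσ) (by exact_mod_cast hρ) hv Q rfl hiv h3 h27 x y
    h3x hpx
  have e27 : algebraMap (WO p) (KO p) i27 = 1 / 27 := by
    have h27K := congrArg (algebraMap (WO p) (KO p)) h27
    rw [map_mul, map_ofNat, map_one] at h27K
    have h0 : (27 : KO p) ≠ 0 := by norm_num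
    rw [eq_div_iff h0]; linear_combination h27K
  have ea : ∀ k, ((a k : ℚ) : KO p) = algebraMap (WO p) (KO p) (a3 i27 k) := by
    intro k
    unfold a a3
    rw [map_mul, map_natCast, map_pow, e27]
    push_cast [Pool.Agent.Q267.MW.u3]
    rw [div_pow, one_pow]
    ring
  have S0 : ∀ (G : ℕ → ℕ), ((∑ k ∈ range p, a k * G k : ℚ) : KO p) = algebraMap (WO p) (KO p) (sg (a3 i27) p G) := by
    intro G
    unfold sg
    rw [Rat.cast_sum, map_sum]
    refine sum_congr rfl fun k _ => ?_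
    rw [map_mul, ← ea, map_natCast]
    push_cast; ring
  have S1 : ∀ (G : ℕ → ℕ), ((∑ k ∈ range p, (k : ℚ) * a k * G k : ℚ) : KO p) =
      algebraMap (WO p) (KO p) (sg1 (a3 i27) p G) := by
    intro G
    unfold sg1
    rw [Rat.cast_sum, map_sum]
    refine sum_congr rfl fun k _ => ?_
    rw [map_mul, map_mul, ← ea, map_natCast, map_natCast]
    push_cast; ring
  have hL : L = luc := funext L_eq
  have hpz : Prime (p : ℤ) := Nat.prime_iff_prime_int.mp hp.out
  have n15x : ¬ (p : ℤ) ∣ 15 * x := by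
    intro h
    rcases hpz.dvd_or_dvd h with h | h
    · have := ndvd_of_primes p (n := 15) (l := [3, 5]) (by simp; norm_num) (by norm_num) (by simp; omega)
      exact this (by exact_mod_cast h)
    · exact hpx h
  have n5x : ¬ (p : ℤ) ∣ 5 * x := by
    intro h
    rcases hpz.dvd_or_dvd h with h | h
    · exact n5 h
    · exact hpx h
  have hx0 : (x : ℚ) ≠ 0 := by
    intro h
    have : x = 0 := by exact_mod_cast h
    exact hpx (by rw [this]; exact dvd_zero _)
  refine ⟨fun c1 c2 c3 => ?_, fun c1 c2 c3 => ?_⟩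
  · obtain ⟨g1, g2, g3⟩ := m1 c1 c2 c3
    refine ⟨cong_of hp.out ?_, cong_of hp.out ?_, cong_of hp.out ?_⟩
    · refine fin_int (SW p) hq (S1 Nat.fib) (X := 15 * x) (E0 := 2 * p - 4 * x ^ 2) n15x ?_ ?_
      · push_cast; exact g1
      · push_cast
        field_simp
        ring
    · rw [hL]
      refine fin_int (SW p) hq (S0 luc) (X := x) (E0 := 4 * x ^ 2 - p) hpx ?_ ?_
      · push_cast; exact g2
      · push_cast
        field_simp
    · rw [hL]
      refine fin_int (SW p) hq (SO := 3 * sg1 (a3 i27) p luc + 2 * sg (a3 i27) p luc) ?_ (X := x)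
        (E0 := 4 * x ^ 2) hpx ?_ ?_
      · rw [map_add, map_mul, map_mul, map_ofNat, map_ofNat, ← S1, ← S0, Rat.cast_sum, Rat.cast_sum, Rat.cast_sum,
          mul_sum, mul_sum, ← sum_add_distrib]
        refine sum_congr rfl fun k _ => ?_
        push_cast; ring
      · push_cast; exact g3
      · push_cast
        ring
  · obtain ⟨g1, g2, g3⟩ := m2 c1 c2 c3
    refine ⟨cong_of hp.out ?_, cong_of hp.out ?_, cong_of hp.out ?_⟩
    · refine fin_int (SW p) hq (S0 Nat.fib) (X := 5 * x) (E0 := p - 20 * x ^ 2) n5x ?_ ?_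
      · push_cast; exact g1
      · push_cast
        field_simp
        ring
    · refine fin_int (SW p) hq (S1 Nat.fib) (X := 3) (E0 := 4 * x) n3' ?_ ?_
      · push_cast; exact g2
      · push_cast
        ring
    · rw [hL]
      refine fin_int (SW p) hq (S1 luc) (X := 3) (E0 := 4 * x) n3' ?_ ?_
      · push_cast; exact g3
      · push_cast
        ring

/-- **Q1 and Q2.** -/
theorem result (p : ℕ) (hp : p.Prime) (h5 : 5 < p) (x y : ℤ) :
    ((p : ℤ) = x ^ 2 + 15 * y ^ 2 → x ≡ 1 [ZMOD 3] →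
      Cong p (∑ k ∈ range p, (k : ℚ) * a k * Nat.fib k) (2 / 15 * (p / x - 2 * x)) ∧
      Cong p (∑ k ∈ range p, a k * L k) (4 * x - p / x) ∧
      Cong p (∑ k ∈ range p, (3 * (k : ℚ) + 2) * a k * L k) (4 * x)) ∧
    ((p : ℤ) = 3 * x ^ 2 + 5 * y ^ 2 → y ≡ 1 [ZMOD 3] →
      Cong p (∑ k ∈ range p, a k * Nat.fib k) (p / (5 * y) - 4 * y) ∧
      Cong p (∑ k ∈ range p, (k : ℚ) * a k * Nat.fib k) (4 / 3 * y) ∧
      Cong p (∑ k ∈ range p, (k : ℚ) * a k * L k) (4 / 3 * y)) := by
  have : Fact p.Prime := ⟨hp⟩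
  have hpz : Prime (p : ℤ) := Nat.prime_iff_prime_int.mp hp
  have np3 : p % 3 ≠ 0 := by
    intro h0
    have := (Nat.prime_dvd_prime_iff_eq Nat.prime_three hp).mp (Nat.dvd_of_mod_eq_zero h0)
    omega
  have np5 : p % 5 ≠ 0 := by
    intro h0
    have := (Nat.prime_dvd_prime_iff_eq (by norm_num : Nat.Prime 5) hp).mp (Nat.dvd_of_mod_eq_zero h0)
    omega
  have hsm : ∀ z : ℤ, z ≠ 0 → z ^ 2 < p → ¬ (p : ℤ) ∣ z := by
    rintro z hz hlt ⟨c, rfl⟩
    have hc : 1 ≤ c ^ 2 := by
      have : c ≠ 0 := by rintro rfl; exact hz (by ring)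
      have : c ^ 2 ≠ 0 := pow_ne_zero 2 this
      have := sq_nonneg c
      omega
    have hp1 : (1 : ℤ) < p := by exact_mod_cast hp.one_lt
    have h1 : (p : ℤ) ^ 2 * 1 ≤ (p : ℤ) ^ 2 * c ^ 2 := mul_le_mul_of_nonneg_left hc (sq_nonneg _)
    have h2 : (p : ℤ) < p ^ 2 := by nlinarith
    have h3' : ((p : ℤ) * c) ^ 2 = (p : ℤ) ^ 2 * c ^ 2 := by ring
    rw [h3'] at hlt
    linarith
  have hl : ∀ e : ℤ, jacobiSym 5 p = e → legendreSym p 5 = e := by
    intro e he
    rw [← he]; exact jacobiSym.legendreSym.to_jacobiSym p 5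
  have hpos : ∀ z : ℤ, z ≠ 0 → 1 ≤ z ^ 2 := by
    intro z hz
    have : z ^ 2 ≠ 0 := pow_ne_zero 2 hz
    have := sq_nonneg z
    omega
  refine ⟨fun hxy h3 => ?_, fun hxy h3 => ?_⟩
  · have hx3 : (3 : ℤ) ∣ x - 1 := (Int.ModEq.dvd h3.symm)
    have hx0 : x ≠ 0 := by rintro rfl; omega
    have hy0 : y ≠ 0 := by
      rintro rfl
      have hd : (p : ℤ) ∣ x := hpz.dvd_of_dvd_pow (n := 2) (by rw [show x ^ 2 = (p : ℤ) by linarith])
      obtain ⟨c, rfl⟩ := hd
      have h1 : (p : ℤ) * 1 = p * (p * c ^ 2) := by linarith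
      have h2 := mul_left_cancel₀ hpz.ne_zero h1
      exact hpz.not_isUnit (IsUnit.of_mul_eq_one _ h2.symm)
    have hx2 := hpos x hx0
    have hy2 := hpos y hy0
    have hpx := hsm x hx0 (by linarith)
    have h16 : 16 ≤ p := by
      have : (16 : ℤ) ≤ p := by rw [hxy]; linarith
      exact_mod_cast this
    have hm3 : p % 3 = 1 := by
      have := Pool.Agent.H546.sq_mod3 x (by omega)
      omega
    have hm5 : p % 5 = 1 ∨ p % 5 = 4 := by
      have := Pool.Agent.H546.sq_mod5 x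
      omega
    have hj5 : jacobiSym 5 p = 1 := by rw [Pool.Agent.H546.jac5_p h5, if_pos hm5]
    exact (main p h16 x y hx3 hpx).1 hm3 (hl _ hj5) hxy
  · have hy3 : (3 : ℤ) ∣ y - 1 := (Int.ModEq.dvd h3.symm)
    have hy0 : y ≠ 0 := by rintro rfl; omega
    have hx0 : x ≠ 0 := by
      rintro rfl
      apply np5
      omega
    have hx2 := hpos x hx0
    have hy2 := hpos y hy0
    have hpy := hsm y hy0 (by linarith)
    have h16 : 16 ≤ p := by
      by_contra hlt
      have h15 : (p : ℤ) ≤ 15 := by omega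
      have hx1 : x ^ 2 = 1 := by
        have h1 : x < 3 := by nlinarith
        have h2 : -3 < x := by nlinarith
        interval_cases x <;> omega
      have hy1 : y ^ 2 = 1 := by
        have h1 : y < 2 := by nlinarith
        have h2 : -2 < y := by nlinarith
        interval_cases y <;> omega
      have : p = 8 := by rw [hx1, hy1] at hxy; omega
      rw [this] at hp
      exact absurd hp (by norm_num)
    have hm3 : p % 3 = 2 := by
      have := Pool.Agent.H546.sq_mod3 y (by omega)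
      omega
    have hm5 : ¬ (p % 5 = 1 ∨ p % 5 = 4) := by
      have := Pool.Agent.H546.sq_mod5 x
      omega
    have hj5 : jacobiSym 5 p = -1 := by rw [Pool.Agent.H546.jac5_p h5, if_neg hm5]
    exact (main p h16 y x hy3 hpy).2 hm3 (hl _ hj5) (by linarith)

end Pool.Agent.Results.MP_2eac29_nt.FibLucas
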